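import Pool.Agent.H79.QF.Targets

/-!
# BLK: decomposition into blocks
-/

set_option autoImplicit false

open Finset Matrix Pool.Agent.H1.Mono Pool.Agent.H79.QF

namespace Pool.Agent.H13.QF

open Classical in
theorem cnt_eq (c : ℕ → Prop) (a b : ℕ) :
    Nat.card {t : ℕ // a ≤ t ∧ t < b ∧ c t} = ((Ico a b).filter c).card := by
  apply Nat.subtype_card
  intro x
  simp only [mem_filter, mem_Ico]
  tauto

theorem pf_BLK : T_BLK := by
  classical
  intro μ η K c hη hK hμ hyp a b hab
  have hyp2 : ∀ a b, a ≤ b → (∀ t, a ≤ t → t < b → ∑ l ∈ Ico a t, μ l ≤ η) →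
      (((Ico a b).filter c).card : ℝ) ≤ K := by
    intro a b h1 h2
    rw [← cnt_eq]
    exact hyp a b h1 h2
  rw [cnt_eq]
  obtain ⟨n, hn⟩ : ∃ n, b - a = n := ⟨_, rfl⟩
  induction n using Nat.strong_induction_on generalizing a with
  | _ n ih =>
    by_cases h : ∀ t, a ≤ t → t < b → ∑ l ∈ Ico a t, μ l ≤ η
    · have h1 := hyp2 a b hab h
      have h2 : 0 ≤ ∑ l ∈ Ico a b, μ l / η := Finset.sum_nonneg fun l _ => div_nonneg (hμ l) hη.le
      nlinarith
    · have hex : ∃ t, a ≤ t ∧ t < b ∧ η < ∑ l ∈ Ico a t, μ l := by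
        by_contra hne
        apply h
        intro t h1 h2
        by_contra h3
        exact hne ⟨t, h1, h2, not_le.1 h3⟩
      set m := Nat.find hex with hm
      obtain ⟨ham, hmb, hsum⟩ := Nat.find_spec hex
      rw [← hm] at ham hmb hsum
      have ham' : a < m := by
        rcases Nat.lt_or_ge a m with h1 | h1
        · exact h1
        · exfalso
          have : a = m := le_antisymm ham h1
          rw [← this, Ico_self, sum_empty] at hsum
          linarith
      have hN1 : (((Ico a m).filter c).card : ℝ) ≤ K := by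
        apply hyp2 a m ham
        intro t h1 h2
        have h3 := Nat.find_min hex h2
        by_contra h4
        exact h3 ⟨h1, h2.trans hmb, not_le.1 h4⟩
      have hN2 := ih (b - m) (by omega) m hmb.le rfl
      have hsplit : ((Ico a b).filter c).card =
          ((Ico a m).filter c).card + ((Ico m b).filter c).card := by
        rw [← Ico_union_Ico_eq_Ico ham hmb.le, filter_union, card_union_of_disjoint]
        apply disjoint_filter_filter
        exact Ico_disjoint_Ico_consecutive a m b
      have hsum2 : ∑ l ∈ Ico a b, μ l / η = ∑ l ∈ Ico a m, μ l / η + ∑ l ∈ Ico m b, μ l / η :=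
        (sum_Ico_consecutive _ ham hmb.le).symm
      have h1 : 1 ≤ ∑ l ∈ Ico a m, μ l / η := by
        rw [← sum_div, le_div_iff₀ hη]
        linarith
      rw [hsplit, hsum2]
      push_cast
      nlinarith

end Pool.Agent.H13.QF
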